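import Pool.Agent.Y745.UP.Defs
import Pool.Agent.H370R2.DirGood
import Pool.Agent.H370R2.Count

/-!
# Discrete moments of the derivative of the zeta function: the upper bound
-/

set_option autoImplicit false

namespace Pool.Agent.Y419.UP

open Filter Topology MeasureTheory Complex H370 Set
open Pool.Agent.Y745.UP

noncomputable section

/-! ### The function -/

/-- powers of the absolute value of zeta near the critical line -/
def gz (β u t : ℝ) : ℝ :=
  ‖riemannZeta (((1 / 2 + u : ℝ) : ℂ) + ((max t 1 : ℝ) : ℂ) * I)‖ ^ β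

theorem gz_nonneg (β u t : ℝ) : 0 ≤ gz β u t := Real.rpow_nonneg (norm_nonneg _) _

theorem gz_eq (β u : ℝ) {t : ℝ} (ht : 1 ≤ t) :
    gz β u t = ‖riemannZeta (((1 / 2 + u : ℝ) : ℂ) + (t : ℂ) * I)‖ ^ β := by
  unfold gz
  rw [max_eq_left ht]

theorem cont_gz {β : ℝ} (hβ : 0 < β) : Continuous (fun p : ℝ × ℝ => gz β p.1 p.2) := by
  unfold gz
  refine Continuous.rpow_const (Continuous.norm ?_) fun _ => Or.inr hβ.le
  rw [continuous_iff_continuousAt]
  intro p
  have hc : ContinuousAt (fun p : ℝ × ℝ => ((1 / 2 + p.1 : ℝ) : ℂ) +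
      ((max p.2 1 : ℝ) : ℂ) * I) p := by
    refine Continuous.continuousAt ?_
    exact (Complex.continuous_ofReal.comp (continuous_const.add continuous_fst)).add
      ((Complex.continuous_ofReal.comp (continuous_snd.max continuous_const)).mul
        continuous_const)
  have hne : ((1 / 2 + p.1 : ℝ) : ℂ) + ((max p.2 1 : ℝ) : ℂ) * I ≠ 1 := by
    intro h
    have h1 := congrArg Complex.im h
    simp only [add_im, ofReal_im, mul_im, ofReal_re, I_im, mul_one, I_re, mul_zero, add_zero,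
      zero_add, one_im] at h1
    have h2 := le_max_right p.2 1
    linarith
  exact ContinuousAt.comp (f := fun p : ℝ × ℝ => ((1 / 2 + p.1 : ℝ) : ℂ) +
      ((max p.2 1 : ℝ) : ℂ) * I) (g := riemannZeta)
    (differentiableAt_riemannZeta hne).continuousAt hc

theorem cont_gz1 {β : ℝ} (hβ : 0 < β) (u : ℝ) : Continuous (gz β u) :=
  (cont_gz hβ).comp (continuous_const.prodMk continuous_id)

/-- the inner integral -/
def Hn (β R γ u : ℝ) : ℝ := ∫ v in (-(2 * R))..(2 * R), gz β u (γ + v)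

theorem cont_Hn {β : ℝ} (hβ : 0 < β) (R γ : ℝ) : Continuous (Hn β R γ) := by
  unfold Hn
  refine intervalIntegral.continuous_parametric_intervalIntegral_of_continuous' ?_ _ _
  exact (cont_gz hβ).comp (continuous_fst.prodMk (continuous_const.add continuous_snd))

theorem Hn_nonneg {β R γ : ℝ} (hR : 0 ≤ R) (u : ℝ) : 0 ≤ Hn β R γ u :=
  intervalIntegral.integral_nonneg (by linarith) fun _ _ => gz_nonneg _ _ _

theorem mono_int {f : ℝ → ℝ} (hf : Continuous f) (h0 : ∀ t, 0 ≤ f t) {a b c d : ℝ}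
    (hca : c ≤ a) (hab : a ≤ b) (hbd : b ≤ d) :
    ∫ t in a..b, f t ≤ ∫ t in c..d, f t :=
  intervalIntegral.integral_mono_interval hca hab hbd (Eventually.of_forall h0)
    (hf.intervalIntegrable _ _)

/-- subharmonicity on the circle -/
theorem sphere_le (hSUBA : P_SUBA) {β R γ : ℝ} (hβ : 0 < β) (hR : 0 < R) (hγ : 1 + 4 * R ≤ γ)
    {z : ℂ} (hz : ‖z - (((1 / 2 : ℝ) : ℂ) + (γ : ℂ) * I)‖ ≤ R) :
    ‖riemannZeta z‖ ^ β ≤ 1 / (Real.pi * R ^ 2) *
      ∫ u in (-(2 * R))..(2 * R), Hn β R γ u := by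
  obtain ⟨a, b, hzab⟩ : ∃ a b : ℝ, z = (((1 / 2 + a : ℝ) : ℂ) + ((γ + b : ℝ) : ℂ) * I) :=
    ⟨z.re - 1 / 2, z.im - γ, by
      apply Complex.ext <;> simp⟩
  have hd : z - (((1 / 2 : ℝ) : ℂ) + (γ : ℂ) * I) = (a : ℂ) + (b : ℂ) * I := by
    rw [hzab]
    push_cast
    ring
  rw [hd] at hz
  have ha : |a| ≤ R := by
    have := (Complex.abs_re_le_norm ((a : ℂ) + (b : ℂ) * I)).trans hz
    simpa using this
  have hb : |b| ≤ R := by
    have := (Complex.abs_im_le_norm ((a : ℂ) + (b : ℂ) * I)).trans hz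
    simpa using this
  rw [abs_le] at ha hb
  have h1 := hSUBA riemannZeta z R β hR hβ (by
    intro w hw
    refine good_zeta.an w ?_
    rw [Metric.mem_closedBall, dist_eq_norm] at hw
    have h2 := (Complex.abs_im_le_norm (w - z)).trans hw
    rw [abs_le] at h2
    have h3 : (w - z).im = w.im - (γ + b) := by
      rw [hzab]
      simp
    rw [h3] at h2
    linarith)
  refine h1.trans ?_
  refine mul_le_mul_of_nonneg_left ?_ (by positivity)
  have h2 : ∫ x in (-R)..R, ∫ y in (-R)..R, ‖riemannZeta (z + x + y * I)‖ ^ β =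
      ∫ x in (-R)..R, ∫ y in (-R)..R, gz β (a + x) (γ + (b + y)) := by
    refine intervalIntegral.integral_congr fun x _ => ?_
    refine intervalIntegral.integral_congr fun y hy => ?_
    rw [uIcc_of_le (by linarith)] at hy
    rw [gz_eq _ _ (by linarith [hy.1])]
    congr 3
    rw [hzab]
    push_cast
    ring
  rw [h2]
  have h3 : ∀ x : ℝ, ∫ y in (-R)..R, gz β (a + x) (γ + (b + y)) ≤ Hn β R γ (a + x) := by
    intro x
    have h4 := intervalIntegral.integral_comp_add_left (a := -R) (b := R)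
      (fun v => gz β (a + x) (γ + v)) b
    rw [h4]
    exact mono_int ((cont_gz1 hβ (a + x)).comp (continuous_const.add continuous_id))
      (fun t => gz_nonneg _ _ _) (by linarith) (by linarith) (by linarith)
  have h5 : ∫ x in (-R)..R, ∫ y in (-R)..R, gz β (a + x) (γ + (b + y)) ≤
      ∫ x in (-R)..R, Hn β R γ (a + x) := by
    refine intervalIntegral.integral_mono_on (by linarith) ?_ ?_ fun x _ => h3 x
    · refine Continuous.intervalIntegrable ?_ _ _
      refine intervalIntegral.continuous_parametric_intervalIntegral_of_continuous' ?_ _ _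
      exact (cont_gz hβ).comp ((continuous_const.add continuous_fst).prodMk
        (continuous_const.add (continuous_const.add continuous_snd)))
    · exact ((cont_Hn hβ R γ).comp (continuous_const.add continuous_id)).intervalIntegrable _ _
  refine h5.trans ?_
  rw [intervalIntegral.integral_comp_add_left (fun u => Hn β R γ u) a]
  exact mono_int (cont_Hn hβ R γ) (Hn_nonneg hR.le) (by linarith) (by linarith) (by linarith)

/-- the derivative -/
theorem deriv_le (hSUBA : P_SUBA) {β R γ : ℝ} (hβ : 0 < β) (hR : 0 < R) (hγ : 1 + 4 * R ≤ γ) :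
    ‖deriv riemannZeta (((1 / 2 : ℝ) : ℂ) + (γ : ℂ) * I)‖ ^ β ≤
      (1 / R) ^ β * (1 / (Real.pi * R ^ 2) * ∫ u in (-(2 * R))..(2 * R), Hn β R γ u) := by
  set M := 1 / (Real.pi * R ^ 2) * ∫ u in (-(2 * R))..(2 * R), Hn β R γ u with hM
  set s : ℂ := ((1 / 2 : ℝ) : ℂ) + (γ : ℂ) * I with hs
  have hM0 : 0 ≤ M := by
    refine mul_nonneg (by positivity) ?_
    exact intervalIntegral.integral_nonneg (by linarith) fun u _ => Hn_nonneg hR.le u
  have h1 : ∀ z ∈ Metric.sphere s R, ‖riemannZeta z‖ ≤ M ^ (1 / β) := by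
    intro z hz
    rw [Metric.mem_sphere, dist_eq_norm] at hz
    have h2 := sphere_le hSUBA hβ hR hγ (z := z) hz.le
    have h3 := Real.rpow_le_rpow (Real.rpow_nonneg (norm_nonneg _) _) h2
      (show 0 ≤ 1 / β by positivity)
    rwa [← Real.rpow_mul (norm_nonneg _), mul_one_div_cancel hβ.ne', Real.rpow_one] at h3
  have h4 : DiffContOnCl ℂ riemannZeta (Metric.ball s R) := by
    refine DifferentiableOn.diffContOnCl fun w hw => ?_
    refine DifferentiableAt.differentiableWithinAt (good_zeta.an w ?_).differentiableAt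
    rw [closure_ball _ hR.ne', Metric.mem_closedBall, dist_eq_norm] at hw
    have h5 := (Complex.abs_im_le_norm (w - s)).trans hw
    rw [abs_le] at h5
    have h6 : (w - s).im = w.im - γ := by
      rw [hs]
      simp
    rw [h6] at h5
    linarith
  have h5 := Complex.norm_deriv_le_of_forall_mem_sphere_norm_le hR h4 h1
  have h6 := Real.rpow_le_rpow (norm_nonneg _) h5 hβ.le
  refine h6.trans (le_of_eq ?_)
  rw [Real.div_rpow (Real.rpow_nonneg hM0 _) hR.le, ← Real.rpow_mul hM0,
    one_div_mul_cancel hβ.ne', Real.rpow_one, Real.div_rpow zero_le_one hR.le, Real.one_rpow]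
  ring

/-! ### Sums over the zeros -/

theorem sum_int (S : Finset ℂ) {f h : ℝ → ℝ} (hf : Continuous f) (hh : Continuous h)
    (hf0 : ∀ t, 0 ≤ f t) (hh0 : ∀ t, 0 ≤ h t) {a b r : ℝ} (hr : 0 ≤ r) (hab : a ≤ b)
    (hS : ∀ s ∈ S, a ≤ s.im - r ∧ s.im + r ≤ b) {E : Set ℝ} (hE : MeasurableSet E)
    (hEab : E ⊆ Icc a b) {n1 n2 c : ℝ} (n10 : 0 ≤ n1) (n20 : 0 ≤ n2) (c0 : 0 ≤ c)
    (hn1 : ∀ t ∈ Icc a b, t ∉ E →
      ((S.filter fun s => s.im - r < t ∧ t ≤ s.im + r).card : ℝ) ≤ n1)
    (hn2 : ∀ t ∈ Icc a b,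
      ((S.filter fun s => s.im - r < t ∧ t ≤ s.im + r).card : ℝ) ≤ n2)
    (hfh : ∀ t, f t ≤ h t + c) :
    ∑ s ∈ S, ∫ v in (-r)..r, f (s.im + v) ≤
      n1 * (∫ t in a..b, f t) + n2 * (∫ t in a..b, h t) + n2 * c * volume.real E := by
  classical
  have key : ∀ s ∈ S, ∫ v in (-r)..r, f (s.im + v) =
      ∫ t in Ioc a b, (Ioc (s.im - r) (s.im + r)).indicator f t := by
    intro s hs
    obtain ⟨h1, h2⟩ := hS s hs
    rw [intervalIntegral.integral_comp_add_left (fun t => f t) s.im,
      intervalIntegral.integral_of_le (by linarith), setIntegral_indicator measurableSet_Ioc,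
      Ioc_inter_Ioc, max_eq_right h1, min_eq_right h2, sub_eq_add_neg]
  rw [Finset.sum_congr rfl key, ← integral_finsetSum]
  · have hfi : IntegrableOn f (Ioc a b) := (hf.integrableOn_Icc).mono_set Ioc_subset_Icc_self
    have hhi : IntegrableOn h (Ioc a b) := (hh.integrableOn_Icc).mono_set Ioc_subset_Icc_self
    have hEi : IntegrableOn (E.indicator fun _ => (1 : ℝ)) (Ioc a b) := by
      refine IntegrableOn.indicator ?_ hE
      exact integrableOn_const (by simp)
    have h1 : ∫ t in Ioc a b, ∑ s ∈ S, (Ioc (s.im - r) (s.im + r)).indicator f t ≤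
        ∫ t in Ioc a b, (n1 * f t + n2 * h t + n2 * c * E.indicator (fun _ => (1 : ℝ)) t) := by
      refine setIntegral_mono_on ?_ ?_ measurableSet_Ioc ?_
      · refine integrable_finsetSum _ fun s _ => ?_
        exact hfi.indicator measurableSet_Ioc
      · exact ((hfi.const_mul n1).add (hhi.const_mul n2)).add (hEi.const_mul (n2 * c))
      · intro t ht
        have e1 : ∑ s ∈ S, (Ioc (s.im - r) (s.im + r)).indicator f t =
            ((S.filter fun s => s.im - r < t ∧ t ≤ s.im + r).card : ℝ) * f t := by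
          simp only [Set.indicator_apply, mem_Ioc]
          rw [← Finset.sum_filter, Finset.sum_const, nsmul_eq_mul]
        rw [e1]
        have ht' : t ∈ Icc a b := ⟨ht.1.le, ht.2⟩
        have p1 := mul_nonneg n10 (hf0 t)
        have p2 := mul_nonneg n20 (hh0 t)
        by_cases htE : t ∈ E
        · rw [Set.indicator_of_mem htE]
          have p3 := mul_le_mul_of_nonneg_right (hn2 t ht') (hf0 t)
          have p4 := mul_le_mul_of_nonneg_left (hfh t) n20
          nlinarith
        · rw [Set.indicator_of_notMem htE]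
          have p3 := mul_le_mul_of_nonneg_right (hn1 t ht' htE) (hf0 t)
          linarith
    refine h1.trans (le_of_eq_of_le ?_ (add_le_add_right (mul_le_mul_of_nonneg_left
      (?_ : volume.real (E ∩ Ioc a b) ≤ volume.real E) (mul_nonneg n20 c0)) _))
    · rw [integral_add, integral_add, integral_const_mul, integral_const_mul, integral_const_mul,
        intervalIntegral.integral_of_le hab, intervalIntegral.integral_of_le hab,
        integral_indicator hE]
      · congr 2
        rw [Measure.restrict_restrict hE]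
        simp
      · exact hfi.const_mul n1
      · exact hhi.const_mul n2
      · exact (hfi.const_mul n1).add (hhi.const_mul n2)
      · exact hEi.const_mul (n2 * c)
    · refine measureReal_mono inter_subset_left ?_
      exact ne_top_of_le_ne_top (by simp) (measure_mono hEab)
  · intro s _
    refine Integrable.indicator ?_ measurableSet_Ioc
    exact (hf.integrableOn_Icc).mono_set Ioc_subset_Icc_self

open Classical in
/-- the zeros near a point -/
theorem count_le {T r δ t : ℝ} (hT : 1 ≤ T) (hrδ : r < δ) (ht : 1 ≤ t - δ) :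
    ((((Zf riemannZeta T (2 * T)).filter (fun s => s.re = 1 / 2)).filter
      fun s => s.im - r < t ∧ t ≤ s.im + r).card : ℝ) ≤
      (NN riemannZeta (t - δ) (t + δ) : ℝ) := by
  rw [NN_eq good_zeta ht]
  push_cast
  rw [Finset.card_eq_sum_ones]
  push_cast
  refine (Finset.sum_le_sum (g := fun s => (mult riemannZeta s : ℝ)) fun s hs => ?_).trans
    (Finset.sum_le_sum_of_subset_of_nonneg ?_ fun s _ _ => Nat.cast_nonneg _)
  · rw [Finset.mem_filter, Finset.mem_filter, mem_Zf good_zeta hT] at hs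
    have h1 := Loc.mult_pos' good_zeta (by linarith [hs.1.1.2.2.1]) hs.1.1.2.2.2.2
    exact_mod_cast h1
  · intro s hs
    rw [Finset.mem_filter, Finset.mem_filter, mem_Zf good_zeta hT] at hs
    rw [mem_Zf good_zeta ht]
    obtain ⟨⟨⟨a1, a2, a3, a4, a5⟩, -⟩, a6, a7⟩ := hs
    exact ⟨a1, a2, by linarith, by linarith, a5⟩

/-- comparison of powers -/
theorem pw_le {k L B a : ℝ} (hk : 0 < k) (hk2 : k < 2) (hL : 1 ≤ L) (ha : 0 ≤ a) :
    a ^ (2 * k) ≤ L ^ (-B) * a ^ (4 : ℝ) + L ^ (B * k / (2 - k)) := by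
  have hL0 : 0 < L := by linarith
  have h2k : 0 < 2 - k := by linarith
  by_cases h : L ^ B ≤ a ^ (4 - 2 * k)
  · have h1 : L ^ B * a ^ (2 * k) ≤ a ^ (4 : ℝ) := by
      have h2 := mul_le_mul_of_nonneg_right h (Real.rpow_nonneg ha (2 * k))
      rwa [← Real.rpow_add_of_nonneg ha (by linarith) (by linarith), sub_add_cancel] at h2
    have h3 := mul_le_mul_of_nonneg_left h1 (Real.rpow_nonneg hL0.le (-B))
    rw [← mul_assoc, ← Real.rpow_add hL0, neg_add_cancel, Real.rpow_zero, one_mul] at h3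
    have h4 := Real.rpow_nonneg hL0.le (B * k / (2 - k))
    linarith
  · rw [not_le] at h
    have h1 := Real.rpow_le_rpow (Real.rpow_nonneg ha _) h.le
      (show 0 ≤ 2 * k / (4 - 2 * k) from div_nonneg (by linarith) (by linarith))
    rw [← Real.rpow_mul ha, ← Real.rpow_mul hL0.le,
      mul_div_cancel₀ _ (show (4 - 2 * k) ≠ 0 by linarith)] at h1
    have h2 : B * (2 * k / (4 - 2 * k)) = B * k / (2 - k) := by
      rw [show 4 - 2 * k = 2 * (2 - k) by ring, mul_div_mul_left _ _ (two_ne_zero), mul_div_assoc]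
    rw [h2] at h1
    have h3 : 0 ≤ L ^ (-B) * a ^ (4 : ℝ) :=
      mul_nonneg (Real.rpow_nonneg hL0.le _) (Real.rpow_nonneg ha _)
    linarith

theorem int_gz {β u T : ℝ} (hT : 2 ≤ T) : ∫ t in (T / 2)..(3 * T), gz β u t =
    ∫ t in (T / 2)..(3 * T), ‖riemannZeta (((1 / 2 + u : ℝ) : ℂ) + (t : ℂ) * I)‖ ^ β := by
  refine intervalIntegral.integral_congr fun t ht => ?_
  rw [uIcc_of_le (by linarith)] at ht
  exact gz_eq β u (by linarith [ht.1])

/-- UPB -/
theorem t_UPB (hSUBA : P_SUBA) (hSTRIP : P_STRIP) (hNZM : P_NZM) : P_UPB := by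
  classical
  intro k ε hk hk2 hε
  obtain ⟨C1, hC1, s1⟩ := hSTRIP k 2 hk (by linarith) two_pos
  obtain ⟨C2, hC2, s2⟩ := hSTRIP 2 2 two_pos le_rfl two_pos
  obtain ⟨C0, hC0, hz⟩ := zcount good_zeta
  have h2k : 0 < 2 - k := by linarith
  obtain ⟨A', hA'⟩ : ∃ A', A' = 5 * k / (2 - k) + 1 := ⟨_, rfl⟩
  have hA0 : 0 < A' := by rw [hA']; positivity
  have nz := hNZM (ε / 2) A' (by positivity) hA0
  obtain ⟨C3, hC3⟩ : ∃ C3, C3 = C1 + 2 * C0 * C2 + 2 * C0 := ⟨_, rfl⟩
  have hC30 : 0 < C3 := by rw [hC3]; positivity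
  have t1 := Real.tendsto_log_atTop
  have f1 := t1.eventually_ge_atTop (4 : ℝ)
  have f2 := t1.eventually ((tendsto_rpow_atTop (show 0 < ε / 2 by positivity)).eventually_ge_atTop
    (4 * C3 / Real.pi))
  filter_upwards [s1, s2, nz, f1, f2, eventually_ge_atTop (100 : ℝ)] with T h1 h2 h3 hL4 hbig hT
  obtain ⟨E, hE, hEs, hEv, hEn⟩ := h3
  set L := Real.log T with hLd
  have hL0 : 0 < L := by linarith
  have hL1 : 1 ≤ L := by linarith
  obtain ⟨R, hR⟩ : ∃ R, R = 1 / L := ⟨_, rfl⟩
  have hR0 : 0 < R := by rw [hR]; positivity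
  have hR4 : R ≤ 1 / 4 := by
    rw [hR]
    exact one_div_le_one_div_of_le (by norm_num) hL4
  have h2R : 2 * R = 2 / L := by rw [hR]; ring
  have h3R : 3 / L ≤ 3 / 4 := div_le_div_of_nonneg_left (by norm_num) (by norm_num) hL4
  set S := (Zf riemannZeta T (2 * T)).filter (fun s => s.re = 1 / 2) with hSd
  have hSm : ∀ s ∈ S, s.re = 1 / 2 ∧ T < s.im ∧ s.im ≤ 2 * T := by
    intro s hs
    rw [hSd, Finset.mem_filter, mem_Zf good_zeta (by linarith)] at hs
    exact ⟨hs.2, hs.1.2.2.1, hs.1.2.2.2.1⟩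
  have hlog3 : Real.log (3 * T) ≤ 2 * L := by
    rw [Real.log_mul (by norm_num) (by linarith)]
    have : Real.log 3 ≤ 2 := by
      have := Real.log_le_sub_one_of_pos (show (0 : ℝ) < 3 by norm_num)
      linarith
    linarith
  -- the sum for one abscissa
  have step : ∀ u ∈ Icc (-(2 * R)) (2 * R),
      ∑ s ∈ S, Hn (2 * k) R s.im u ≤ C3 * (T * L ^ (k ^ 2 + ε / 2)) := by
    intro u hu
    have hu' : |u| ≤ 2 / L := by
      rw [← h2R]
      exact abs_le.2 hu
    have g1 := h1 u hu'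
    have g2 := h2 u hu'
    rw [← int_gz (by linarith)] at g1 g2
    have g3 := sum_int S (f := gz (2 * k) u) (h := fun t => L ^ (-5 : ℝ) * gz 4 u t)
      (cont_gz1 (by linarith) u) ((cont_gz1 (by norm_num) u).const_mul _)
      (fun t => gz_nonneg _ _ _)
      (fun t => mul_nonneg (Real.rpow_nonneg hL0.le _) (gz_nonneg _ _ _))
      (a := T / 2) (b := 3 * T) (r := 2 * R) (by linarith) (by linarith)
      (fun s hs => ⟨by linarith [(hSm s hs).2.1], by linarith [(hSm s hs).2.2]⟩)
      hE hEs (n1 := L ^ (ε / 2)) (n2 := 2 * C0 * L) (c := L ^ (5 * k / (2 - k)))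
      (Real.rpow_nonneg hL0.le _) (by positivity) (Real.rpow_nonneg hL0.le _)
      (fun t ht htE => (count_le (δ := 3 / L) (by linarith)
        (by rw [h2R]; exact div_lt_div_of_pos_right (by norm_num) hL0)
        (by linarith [ht.1])).trans (hEn t ht htE))
      (fun t ht => by
        refine (count_le (δ := 1) (by linarith) (by linarith) (by linarith [ht.1])).trans ?_
        refine (hz t (by linarith [ht.1])).trans ?_
        have q1 : Real.log t ≤ Real.log (3 * T) :=
          Real.log_le_log (by linarith [ht.1]) ht.2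
        nlinarith)
      (fun t => pw_le hk hk2 hL1 (norm_nonneg _))
    have e0 : ∀ s ∈ S, Hn (2 * k) R s.im u = ∫ v in (-(2 * R))..(2 * R), gz (2 * k) u (s.im + v) :=
      fun s _ => rfl
    rw [Finset.sum_congr rfl e0]
    refine g3.trans ?_
    rw [intervalIntegral.integral_const_mul]
    have p1 : L ^ (ε / 2) * ∫ t in (T / 2)..(3 * T), gz (2 * k) u t ≤
        C1 * (T * L ^ (k ^ 2 + ε / 2)) := by
      refine (mul_le_mul_of_nonneg_left g1 (Real.rpow_nonneg hL0.le _)).trans (le_of_eq ?_)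
      rw [Real.rpow_add hL0]
      ring
    have hone : 1 ≤ L ^ (k ^ 2 + ε / 2) := Real.one_le_rpow hL1 (by positivity)
    have p2 : 2 * C0 * L * (L ^ (-5 : ℝ) * ∫ t in (T / 2)..(3 * T), gz 4 u t) ≤
        2 * C0 * C2 * (T * L ^ (k ^ 2 + ε / 2)) := by
      have g2' : ∫ t in (T / 2)..(3 * T), gz 4 u t ≤ C2 * (T * L ^ (4 : ℝ)) := by
        have e1 : (2 * 2 : ℝ) = 4 := by norm_num
        have e2 : ((2 : ℝ) ^ 2) = 4 := by norm_num
        rw [e1, e2] at g2
        exact g2
      have e3 : L * (L ^ (-5 : ℝ) * L ^ (4 : ℝ)) = 1 := by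
        rw [← Real.rpow_add hL0]
        nth_rewrite 1 [← Real.rpow_one L]
        rw [← Real.rpow_add hL0]
        norm_num
      calc 2 * C0 * L * (L ^ (-5 : ℝ) * ∫ t in (T / 2)..(3 * T), gz 4 u t)
          ≤ 2 * C0 * L * (L ^ (-5 : ℝ) * (C2 * (T * L ^ (4 : ℝ)))) := by
            have := Real.rpow_nonneg hL0.le (-5)
            gcongr
        _ = 2 * C0 * C2 * T * (L * (L ^ (-5 : ℝ) * L ^ (4 : ℝ))) := by ring
        _ = 2 * C0 * C2 * (T * 1) := by rw [e3]; ring
        _ ≤ 2 * C0 * C2 * (T * L ^ (k ^ 2 + ε / 2)) := by gcongr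
    have p3 : 2 * C0 * L * L ^ (5 * k / (2 - k)) * volume.real E ≤
        2 * C0 * (T * L ^ (k ^ 2 + ε / 2)) := by
      have e4 : L * L ^ (5 * k / (2 - k)) = L ^ A' := by
        rw [hA', Real.rpow_add hL0, Real.rpow_one]
        ring
      have hLA : 0 < L ^ A' := Real.rpow_pos_of_pos hL0 _
      calc 2 * C0 * L * L ^ (5 * k / (2 - k)) * volume.real E
          = 2 * C0 * (L * L ^ (5 * k / (2 - k))) * volume.real E := by ring
        _ = 2 * C0 * L ^ A' * volume.real E := by rw [e4]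
        _ ≤ 2 * C0 * L ^ A' * (T / L ^ A') := by gcongr
        _ = 2 * C0 * (T * 1) := by field_simp
        _ ≤ 2 * C0 * (T * L ^ (k ^ 2 + ε / 2)) := by gcongr
    rw [hC3]
    linarith
  -- all zeros
  have hsum : ∑ s ∈ S, ‖deriv riemannZeta s‖ ^ (2 * k) ≤
      (1 / R) ^ (2 * k) * (1 / (Real.pi * R ^ 2) *
        (4 * R * (C3 * (T * L ^ (k ^ 2 + ε / 2))))) := by
    have q1 : ∑ s ∈ S, ‖deriv riemannZeta s‖ ^ (2 * k) ≤ ∑ s ∈ S, (1 / R) ^ (2 * k) *
        (1 / (Real.pi * R ^ 2) * ∫ u in (-(2 * R))..(2 * R), Hn (2 * k) R s.im u) := by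
      refine Finset.sum_le_sum fun s hs => ?_
      have q2 : s = ((1 / 2 : ℝ) : ℂ) + ((s.im : ℝ) : ℂ) * I := by
        apply Complex.ext
        · simp [(hSm s hs).1]
        · simp
      have q3 := deriv_le hSUBA (β := 2 * k) (R := R) (γ := s.im) (by linarith) hR0
        (by linarith [(hSm s hs).2.1])
      rwa [← q2] at q3
    refine q1.trans ?_
    rw [← Finset.mul_sum, ← Finset.mul_sum, ← intervalIntegral.integral_finsetSum]
    · refine mul_le_mul_of_nonneg_left (mul_le_mul_of_nonneg_left ?_ (by positivity))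
        (by positivity)
      have q4 : ∫ u in (-(2 * R))..(2 * R), ∑ s ∈ S, Hn (2 * k) R s.im u ≤
          ∫ u in (-(2 * R))..(2 * R), C3 * (T * L ^ (k ^ 2 + ε / 2)) := by
        refine intervalIntegral.integral_mono_on (by linarith) ?_ (by simp) step
        exact (continuous_finsetSum _ fun s _ => cont_Hn (by linarith) R s.im).intervalIntegrable
          _ _
      refine q4.trans (le_of_eq ?_)
      rw [intervalIntegral.integral_const, smul_eq_mul]
      ring
    · intro s _
      exact (cont_Hn (by linarith) R s.im).intervalIntegrable _ _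
  refine hsum.trans ?_
  have e5 : (1 / R) = L := by rw [hR, one_div_one_div]
  rw [e5]
  have hpi := Real.pi_pos
  calc L ^ (2 * k) * (1 / (Real.pi * R ^ 2) * (4 * R * (C3 * (T * L ^ (k ^ 2 + ε / 2)))))
      = (4 * C3 / Real.pi) * (T * (L ^ (2 * k) * L * L ^ (k ^ 2 + ε / 2))) := by
        rw [hR]
        field_simp
    _ = (4 * C3 / Real.pi) * (T * L ^ ((k + 1) ^ 2 + ε / 2)) := by
        congr 2
        nth_rewrite 2 [← Real.rpow_one L]
        rw [← Real.rpow_add hL0, ← Real.rpow_add hL0]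
        congr 1
        ring
    _ ≤ L ^ (ε / 2) * (T * L ^ ((k + 1) ^ 2 + ε / 2)) := by
        have := Real.rpow_nonneg hL0.le ((k + 1) ^ 2 + ε / 2)
        gcongr
    _ = T * L ^ ((k + 1) ^ 2 + ε) := by
        rw [show (k + 1) ^ 2 + ε = ε / 2 + ((k + 1) ^ 2 + ε / 2) by ring,
          Real.rpow_add hL0 (ε / 2) ((k + 1) ^ 2 + ε / 2)]
        ring

end

end Pool.Agent.Y419.UP
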